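import Pool.Agent.U398.MV.Stm4

set_option autoImplicit false

/-!
# Project MV4, package PU: upper bound of Palm means
-/

namespace Pool.Agent.U898.MV4

open MeasureTheory Filter Topology Set Pool.Agent.U398.MV

/-- Cauchy-Schwarz -/
theorem cs {α : Type*} [MeasurableSpace α] (μ : Measure α) (f h : α → ℝ)
    (hf : Integrable (fun t => f t ^ 2) μ) (hh : Integrable (fun t => h t ^ 2) μ)
    (hfh : Integrable (fun t => f t * h t) μ) :
    ∫ t, f t * h t ∂μ ≤ Real.sqrt (∫ t, f t ^ 2 ∂μ) * Real.sqrt (∫ t, h t ^ 2 ∂μ) := by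
  set F := ∫ t, f t ^ 2 ∂μ with hF
  set H := ∫ t, h t ^ 2 ∂μ with hH
  set I := ∫ t, f t * h t ∂μ with hI
  have hF0 : 0 ≤ F := integral_nonneg fun t => sq_nonneg _
  have hH0 : 0 ≤ H := integral_nonneg fun t => sq_nonneg _
  have key : ∀ x : ℝ, 0 ≤ F * (x * x) + (2 * I) * x + H := by
    intro x
    have h1 : 0 ≤ ∫ t, (x * f t + h t) ^ 2 ∂μ := integral_nonneg fun t => sq_nonneg _
    have h2 : ∫ t, (x * f t + h t) ^ 2 ∂μ = F * (x * x) + (2 * I) * x + H := by
      have e : (fun t => (x * f t + h t) ^ 2) =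
          fun t => ((x * x) * f t ^ 2 + (2 * x) * (f t * h t)) + h t ^ 2 := by
        funext t; ring
      have a1 : Integrable (fun t => (x * x) * f t ^ 2) μ := hf.const_mul _
      have a2 : Integrable (fun t => (2 * x) * (f t * h t)) μ := hfh.const_mul _
      have a3 : Integrable (fun t => (x * x) * f t ^ 2 + (2 * x) * (f t * h t)) μ := a1.add a2
      rw [e, integral_add a3 hh, integral_add a1 a2, integral_const_mul, integral_const_mul]
      ring
    rw [← h2]
    exact h1
  have hd := discrim_le_zero key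
  unfold discrim at hd
  have hsq : I ^ 2 ≤ F * H := by nlinarith
  rw [← Real.sqrt_mul hF0]
  exact Real.le_sqrt_of_sq_le hsq

theorem F_le (x y : ℝ) (hx : 0 < x) (hy : 0 < y) :
    (y * Real.log y - y) - (x * Real.log x - x) ≤ (y - x) * Real.log y := by
  have h := Real.log_le_sub_one_of_pos (div_pos hy hx)
  rw [Real.log_div hy.ne' hx.ne'] at h
  have h2 := mul_le_mul_of_nonneg_left h hx.le
  have h3 : x * (y / x - 1) = y - x := by field_simp
  rw [h3] at h2
  nlinarith

theorem Mf_eq (t : ℝ) : Mf t = t / (2 * Real.pi) * Real.log (t / (2 * Real.pi)) -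
    t / (2 * Real.pi) := rfl

theorem Mf_cont : Continuous Mf := by
  have h1 : Continuous fun t : ℝ => t / (2 * Real.pi) := continuous_id.div_const _
  have h2 : Continuous fun t : ℝ => t / (2 * Real.pi) * Real.log (t / (2 * Real.pi)) :=
    Real.continuous_mul_log.comp h1
  exact h2.sub h1

theorem Mf_diff (T t w : ℝ) (hT : 100 ≤ T) (ht : 3 * T / 4 ≤ t) (ht2 : t ≤ 3 * T)
    (hw : w = 2 * Real.pi / Real.log T) : |Mf (t + w) - Mf t| ≤ 1 := by
  have hL1 : 1 ≤ Real.log T := by
    rw [Real.le_log_iff_exp_le (by linarith)]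
    have := Real.exp_one_lt_d9
    linarith
  have hL0 : 0 < Real.log T := by linarith
  have hpi := Real.pi_gt_three
  have hpi4 := Real.pi_lt_d2
  have hw0 : 0 < w := by rw [hw]; positivity
  have hw7 : w ≤ 7 := by
    rw [hw, div_le_iff₀ hL0]
    nlinarith
  have h2pi : 0 < 2 * Real.pi := by positivity
  set x := t / (2 * Real.pi) with hx
  set y := (t + w) / (2 * Real.pi) with hy
  have hx1 : 1 ≤ x := by
    rw [hx, le_div_iff₀ h2pi]
    linarith
  have hxy : y - x = 1 / Real.log T := by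
    rw [hx, hy, hw]
    field_simp
    ring
  have hxy0 : 0 ≤ y - x := by rw [hxy]; positivity
  have hy1 : 1 ≤ y := by linarith
  have hyT : y ≤ T := by
    rw [hy, div_le_iff₀ h2pi]
    nlinarith
  have hlogy : Real.log y ≤ Real.log T := Real.log_le_log (by linarith) hyT
  have hlogx : 0 ≤ Real.log x := Real.log_nonneg hx1
  have e : Mf (t + w) - Mf t = (y * Real.log y - y) - (x * Real.log x - x) := by
    rw [Mf_eq, Mf_eq]
  have up := F_le x y (by linarith) (by linarith)
  have lo := F_le y x (by linarith) (by linarith)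
  rw [e, abs_le]
  constructor
  · have : (x - y) * Real.log x ≤ 0 := mul_nonpos_of_nonpos_of_nonneg (by linarith) hlogx
    linarith
  · have h1 : (y - x) * Real.log y ≤ (y - x) * Real.log T := mul_le_mul_of_nonneg_left hlogy hxy0
    have h2 : (y - x) * Real.log T = 1 := by
      rw [hxy]
      field_simp
    linarith

theorem t_PU : S_PU := by
  intro N g C1 hN hM
  obtain ⟨Cm, Tm, hCm, hTm, hmom⟩ := hM.1 1 7
  set Cq : ℝ := 9 / 2 + 2 * (Cm * (1 + Real.log (1 + 2 * Real.pi))) with hCq
  have hpi := Real.pi_gt_three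
  have hpi4 := Real.pi_lt_d2
  have hlog0 : 0 ≤ Real.log (1 + 2 * Real.pi) := Real.log_nonneg (by linarith)
  have hCq0 : 0 < Cq := by positivity
  refine ⟨Real.sqrt Cq, max Tm 100, Real.sqrt_pos.2 hCq0, le_max_of_le_left hTm, ?_⟩
  intro T hT f hf0 hfm hfi
  have hT1 : Tm ≤ T := (le_max_left _ _).trans hT
  have hT2 : 100 ≤ T := (le_max_right _ _).trans hT
  set w : ℝ := 2 * Real.pi / Real.log T with hw
  have hL1 : 1 ≤ Real.log T := by
    rw [Real.le_log_iff_exp_le (by linarith)]
    have := Real.exp_one_lt_d9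
    linarith
  have hL0 : 0 < Real.log T := by linarith
  have hw0 : 0 < w := by rw [hw]; positivity
  have hw7 : w ≤ 7 := by
    rw [hw, div_le_iff₀ hL0]
    nlinarith
  set K : Set ℝ := Ioc (3 * T / 4) (3 * T) with hK
  have hKm : MeasurableSet K := measurableSet_Ioc
  set μ' : Measure ℝ := volume.restrict K with hμ
  have hKfin : IsFiniteMeasure μ' := by
    rw [hμ, hK]
    exact ⟨by rw [Measure.restrict_apply_univ, Real.volume_Ioc]; exact ENNReal.ofReal_lt_top⟩
  set h : ℝ → ℝ := fun t => (N (t + w) : ℝ) - N t with hh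
  have hNmono : Monotone fun t : ℝ => (N t : ℝ) := fun a b hab => Nat.cast_le.2 (hN.mono hab)
  have hh0 : ∀ t, 0 ≤ h t := fun t => sub_nonneg.2 (hNmono (by linarith))
  have hhm : Measurable h := by
    have h1 : Measurable fun t : ℝ => (N t : ℝ) := hNmono.measurable
    exact (h1.comp (measurable_id.add_const w)).sub h1
  have hhb : ∀ t ∈ K, h t ≤ N (3 * T + 7) := by
    intro t ht
    have h1 : (N (t + w) : ℝ) ≤ N (3 * T + 7) := hNmono (by linarith [ht.2])
    have h2 : (0 : ℝ) ≤ N t := Nat.cast_nonneg _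
    have : h t = (N (t + w) : ℝ) - N t := rfl
    linarith
  have hMfm : Measurable Mf := Mf_cont.measurable
  -- integrability
  have hf2 : Integrable (fun t => f t ^ 2) μ' := hfi.mono_set Ioc_subset_Icc_self
  have hfm' : AEStronglyMeasurable f μ' := hfm.restrict
  have hfint : Integrable f μ' := by
    refine Integrable.mono' ((integrable_const (1 : ℝ)).add hf2) hfm' (Eventually.of_forall fun t => ?_)
    rw [Real.norm_eq_abs, abs_of_nonneg (hf0 t)]
    show f t ≤ 1 + f t ^ 2
    nlinarith [sq_nonneg (f t - 1), hf0 t]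
  have hh2 : Integrable (fun t => h t ^ 2) μ' := by
    refine Integrable.mono' (integrable_const (((N (3 * T + 7) : ℕ) : ℝ) ^ 2))
      (hhm.pow_const 2).aestronglyMeasurable ?_
    rw [hμ]
    refine (ae_restrict_iff' hKm).2 (Eventually.of_forall fun t ht => ?_)
    rw [Real.norm_eq_abs, abs_of_nonneg (sq_nonneg _)]
    exact pow_le_pow_left₀ (hh0 t) (hhb t ht) 2
  have hfh : Integrable (fun t => f t * h t) μ' := by
    refine Integrable.mono' (hf2.add hh2) (hfm'.mul hhm.aestronglyMeasurable)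
      (Eventually.of_forall fun t => ?_)
    rw [Real.norm_eq_abs, abs_of_nonneg (mul_nonneg (hf0 t) (hh0 t))]
    show f t * h t ≤ f t ^ 2 + h t ^ 2
    nlinarith [sq_nonneg (f t - h t), sq_nonneg (f t), sq_nonneg (h t)]
  -- second moment of the counts
  have hsgm : Measurable fun t => sg N (t + w) - sg N t := by
    have h1 : Measurable (sg N) := hNmono.measurable.sub hMfm
    exact (h1.comp (measurable_id.add_const w)).sub h1
  have hdec : ∀ t, h t = (Mf (t + w) - Mf t) + (sg N (t + w) - sg N t) := by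
    intro t
    simp only [hh, sg]
    ring
  have hMK : ∀ t ∈ K, |Mf (t + w) - Mf t| ≤ 1 := fun t ht =>
    Mf_diff T t w hT2 ht.1.le ht.2 hw
  have hsg2 : Integrable (fun t => (sg N (t + w) - sg N t) ^ 2) μ' := by
    refine Integrable.mono' (integrable_const ((((N (3 * T + 7) : ℕ) : ℝ) + 1) ^ 2))
      (hsgm.pow_const 2).aestronglyMeasurable ?_
    rw [hμ]
    refine (ae_restrict_iff' hKm).2 (Eventually.of_forall fun t ht => ?_)
    rw [Real.norm_eq_abs, abs_of_nonneg (sq_nonneg _), ← sq_abs (sg N (t + w) - sg N t)]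
    refine pow_le_pow_left₀ (abs_nonneg _) ?_ 2
    have e1 : sg N (t + w) - sg N t = h t - (Mf (t + w) - Mf t) := by rw [hdec]; ring
    rw [e1]
    have e2 := abs_sub (h t) (Mf (t + w) - Mf t)
    rw [abs_of_nonneg (hh0 t)] at e2
    linarith [hMK t ht, hhb t ht]
  have hsgI : ∫ t, (sg N (t + w) - sg N t) ^ 2 ∂μ' ≤
      Cm * T * (1 + Real.log (1 + 2 * Real.pi)) := by
    have h1 := hmom T hT1 w 0 (by rw [abs_of_pos hw0]; exact hw7) (by norm_num)
    rw [intervalIntegral.integral_of_le (by linarith)] at h1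
    have e1 : |w - 0| * Real.log T = 2 * Real.pi := by
      rw [sub_zero, abs_of_pos hw0, hw]
      field_simp
    rw [e1, pow_one] at h1
    simpa using h1
  have hhI : ∫ t, h t ^ 2 ∂μ' ≤ Cq * T := by
    have h1 : ∫ t, h t ^ 2 ∂μ' ≤ ∫ t, (2 + 2 * (sg N (t + w) - sg N t) ^ 2) ∂μ' := by
      refine integral_mono_ae hh2 ((integrable_const _).add (hsg2.const_mul _)) ?_
      rw [hμ]
      refine (ae_restrict_iff' hKm).2 (Eventually.of_forall fun t ht => ?_)
      show h t ^ 2 ≤ 2 + 2 * (sg N (t + w) - sg N t) ^ 2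
      rw [hdec]
      have h3 := hMK t ht
      have h4 : (Mf (t + w) - Mf t) ^ 2 ≤ 1 := by
        rw [← sq_abs]
        nlinarith [abs_nonneg (Mf (t + w) - Mf t)]
      nlinarith [sq_nonneg ((Mf (t + w) - Mf t) - (sg N (t + w) - sg N t))]
    have hvol : μ'.real univ = 9 / 4 * T := by
      rw [hμ, Measure.real, Measure.restrict_apply_univ, hK, Real.volume_Ioc,
        ENNReal.toReal_ofReal (by linarith)]
      ring
    rw [integral_add (integrable_const _) (hsg2.const_mul _), integral_const,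
      integral_const_mul, hvol, smul_eq_mul] at h1
    rw [hCq]
    nlinarith
  -- the pointwise bound
  set S := Finset.Ioc (N T) (N (2 * T)) with hS
  have hpt : ∀ t, ∑ n ∈ S, (Ioo (g n - w) (g n)).indicator f t ≤ f t * h t := by
    intro t
    classical
    have e1 : ∑ n ∈ S, (Ioo (g n - w) (g n)).indicator f t =
        ((S.filter fun n => t ∈ Ioo (g n - w) (g n)).card : ℝ) * f t := by
      rw [← Finset.sum_filter_add_sum_filter_not S (fun n => t ∈ Ioo (g n - w) (g n)),
        Finset.sum_congr rfl (g := fun _ => f t), Finset.sum_congr (s₁ := S.filter fun n =>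
          ¬ t ∈ Ioo (g n - w) (g n)) rfl (g := fun _ => (0 : ℝ))]
      · simp
      · intro n hn
        exact indicator_of_notMem (Finset.mem_filter.1 hn).2 _
      · intro n hn
        exact indicator_of_mem (Finset.mem_filter.1 hn).2 _
    rw [e1, mul_comm]
    refine mul_le_mul_of_nonneg_left ?_ (hf0 t)
    have hsub : (S.filter fun n => t ∈ Ioo (g n - w) (g n)) ⊆ Finset.Ioc (N t) (N (t + w)) := by
      intro n hn
      obtain ⟨hnS, hnt⟩ := Finset.mem_filter.1 hn
      have hn1 : 1 ≤ n := by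
        have := (Finset.mem_Ioc.1 hnS).1
        omega
      rw [Finset.mem_Ioc]
      constructor
      · by_contra hcon
        have := (hN.gc n hn1 t).2 (not_lt.1 hcon)
        exact absurd hnt.2 (not_lt.2 this)
      · exact (hN.gc n hn1 (t + w)).1 (by linarith [hnt.1])
    have hc := Finset.card_le_card hsub
    rw [Nat.card_Ioc] at hc
    have h2 : N t ≤ N (t + w) := hN.mono (by linarith)
    have h3 : (((S.filter fun n => t ∈ Ioo (g n - w) (g n)).card : ℕ) : ℝ) ≤
        ((N (t + w) - N t : ℕ) : ℝ) := by exact_mod_cast hc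
    rw [Nat.cast_sub h2] at h3
    exact h3
  -- the Palm mean
  have hsum : ∑ n ∈ S, ∫ t in (g n - w)..(g n), f t ≤ ∫ t, f t * h t ∂μ' := by
    have e1 : ∀ n ∈ S, ∫ t in (g n - w)..(g n), f t =
        ∫ t, (Ioo (g n - w) (g n)).indicator f t ∂μ' := by
      intro n hn
      have hn1 : 1 ≤ n := by
        have := (Finset.mem_Ioc.1 hn).1
        omega
      have hgT : T < g n := by
        by_contra hcon
        have := (hN.gc n hn1 T).1 (not_lt.1 hcon)
        have h2 := (Finset.mem_Ioc.1 hn).1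
        omega
      have hg2T : g n ≤ 2 * T := (hN.gc n hn1 (2 * T)).2 (Finset.mem_Ioc.1 hn).2
      have hsub : Ioo (g n - w) (g n) ⊆ K := by
        intro t ht
        exact ⟨by linarith [ht.1], by linarith [ht.2]⟩
      rw [intervalIntegral.integral_of_le (by linarith), integral_Ioc_eq_integral_Ioo, hμ,
        setIntegral_indicator measurableSet_Ioo, inter_eq_right.2 hsub]
    rw [Finset.sum_congr rfl e1, ← integral_finsetSum]
    · refine integral_mono ?_ hfh hpt
      exact integrable_finsetSum _ fun n _ => hfint.indicator measurableSet_Ioo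
    · intro n _
      exact hfint.indicator measurableSet_Ioo
  have hcs := cs μ' f h hf2 hh2 hfh
  have hfI : ∫ t, f t ^ 2 ∂μ' = ∫ t in (3 * T / 4)..(3 * T), f t ^ 2 := by
    rw [intervalIntegral.integral_of_le (by linarith)]
  have hPA : PA N g T w (fun _ t => f t) = 1 / w * ∑ n ∈ S, ∫ t in (g n - w)..(g n), f t := by
    unfold PA
    rw [Finset.mul_sum]
  rw [hPA]
  have hw1 : 1 / w ≤ Real.log T := by
    rw [hw, one_div, inv_div, div_le_iff₀ (by positivity)]
    nlinarith
  have hsq0 : 0 ≤ Real.sqrt (∫ t in (3 * T / 4)..(3 * T), f t ^ 2) := Real.sqrt_nonneg _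
  have hsH : Real.sqrt (∫ t, h t ^ 2 ∂μ') ≤ Real.sqrt Cq * Real.sqrt T := by
    rw [← Real.sqrt_mul hCq0.le]
    exact Real.sqrt_le_sqrt hhI
  have hI0 : 0 ≤ ∫ t, f t * h t ∂μ' := integral_nonneg fun t => mul_nonneg (hf0 t) (hh0 t)
  calc 1 / w * ∑ n ∈ S, ∫ t in (g n - w)..(g n), f t
      ≤ 1 / w * ∫ t, f t * h t ∂μ' := mul_le_mul_of_nonneg_left hsum (by positivity)
    _ ≤ Real.log T * ∫ t, f t * h t ∂μ' := mul_le_mul_of_nonneg_right hw1 hI0
    _ ≤ Real.log T * (Real.sqrt (∫ t, f t ^ 2 ∂μ') * Real.sqrt (∫ t, h t ^ 2 ∂μ')) :=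
        mul_le_mul_of_nonneg_left hcs hL0.le
    _ ≤ Real.log T * (Real.sqrt (∫ t, f t ^ 2 ∂μ') * (Real.sqrt Cq * Real.sqrt T)) :=
        mul_le_mul_of_nonneg_left (mul_le_mul_of_nonneg_left hsH (Real.sqrt_nonneg _)) hL0.le
    _ = Real.sqrt Cq * Real.log T * Real.sqrt T *
        Real.sqrt (∫ t in (3 * T / 4)..(3 * T), f t ^ 2) := by
        rw [hfI]; ring

end Pool.Agent.U898.MV4
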